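import Pool.Agent.Q22.Factor

/-! Every countably infinite group is an exact product of two infinite subsets. -/

namespace Pool.Agent.Results.MP_b3a091_al.InfiniteFactors

/-- Every countably infinite group `G` has an exact factorization `G = AB` in which both subsets
`A` and `B` are infinite. -/
theorem result :
    ∀ (G : Type*) [Group G] [Countable G] [Infinite G],
      ∃ A B : Set G, A.Infinite ∧ B.Infinite ∧
        ∀ g : G, ∃! p : G × G, p.1 ∈ A ∧ p.2 ∈ B ∧ p.1 * p.2 = g := by
  intro G _ _ _
  exact Q22.hasFact

end Pool.Agent.Results.MP_b3a091_al.InfiniteFactors
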